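import Pool.Agent.H82.NTC.Pot

/-!
# Board `ntc`, row PWSE (helper44): the potential of the men for the women of kind `SE`
-/

set_option autoImplicit false

namespace Pool.NTC

open Pool.NET

theorem pwse_row {S x y : ℤ} (hS : 0 < S) :
    (S * y + S ≤ S * x) ∨ S * x = S * y ∨ S * x = S * y - S ∨ (S * x + 2 * S ≤ S * y) := by
  rcases lt_trichotomy x y with h | h | h
  · rcases lt_or_eq_of_le (show x ≤ y - 1 by omega) with h2 | h2
    · right; right; right
      have : S * (x + 2) ≤ S * y := mul_le_mul_of_nonneg_left (by omega) hS.le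
      linarith [mul_add S x 2]
    · right; right; left; rw [h2]; ring
  · right; left; rw [h]
  · left
    have : S * (y + 1) ≤ S * x := mul_le_mul_of_nonneg_left (by omega) hS.le
    linarith [mul_add S y 1]

theorem pwse_thm : PWk Ke.SE := by
  intro p e g e' g' h u hp hp' hR tt htt v a s hs hs' hlt
  obtain ⟨w, k⟩ := a
  obtain ⟨q0, gq, gW, We, eM, MS⟩ := hp
  obtain ⟨-, gq', gW', We', eM', -⟩ := hp'
  have hS : 0 < p.S := by omega
  have hcmp := pwse_row (x := w.2) (y := v.2) hS
  unfold Rel at hR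
  by_cases hu : u (v.1, v.2 - 1)
  · have hpv : pv2 h u (v, Ke.SE) = ((v.1, v.2 - 1), Ke.J1) := by simp only [pv2, hu, if_true]
    simp only [prW] at hlt
    rw [hpv] at hlt ⊢
    have ht := htt ((v.1, v.2 - 1), Ke.J1)
    set τ := tt ((v.1, v.2 - 1), Ke.J1) with hτ
    have hm : p.S * (v.2 - 1) = p.S * v.2 - p.S := by ring
    cases k <;> simp only [fy, lvW, sgW, hm] at hlt ⊢ <;>
      rcases abs_cases (2 * (p.S * v.2 - p.S + e + (p.S * v.2 - e) - 2 * p.q) + 1 -
        4 * (p.S * v.2 - p.S + e + τ)) with h1 | h1 <;>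
      rcases hR with hR | hR | hR <;> rcases hcmp with hc | hc | hc | hc <;>
      rw [abs_lt] at hlt <;> omega
  · have hpv : pv2 h u (v, Ke.SE) = (v, Ke.B) := by simp only [pv2, hu, if_false]
    simp only [prW] at hlt
    rw [hpv] at hlt ⊢
    have ht := htt (v, Ke.B)
    set τ := tt (v, Ke.B) with hτ
    cases k <;> simp only [fy, lvW, sgW] at hlt ⊢ <;>
      rcases abs_cases (2 * (p.S * v.2 - 2 * e + (p.S * v.2 - e) - 2 * p.q) + 1 -
        4 * (p.S * v.2 - 2 * e + τ)) with h1 | h1 <;>
      rcases hR with hR | hR | hR <;> rcases hcmp with hc | hc | hc | hc <;>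
      rw [abs_lt] at hlt <;> omega

end Pool.NTC
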