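import Pool.Agent.H82.NTC.Stmts

/-!
# Board `ntb`, row XDNW (helper44): crossings of different elements, first corner of kind `NW`
-/

set_option autoImplicit false

namespace Pool.NTC

open Pool.NET

theorem xdnw_thm : XDF Ke.NW := by
  intro p e g e' g' N N' h h' u hp hp' _ _ _ _ hcase v w hv hw h1 h2 h3 h4
  obtain ⟨vc, vr⟩ := v
  obtain ⟨⟨wc, wr⟩, kw⟩ := w
  obtain ⟨q0, gq, gW, We, eM, MS⟩ := hp
  obtain ⟨_, gq', gW', We', eM', _⟩ := hp'
  obtain ⟨q, W, M, S⟩ := p
  simp only at q0 gq gW We eM MS gq' gW' We' eM' hcase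
  have hS : 0 < S := by omega
  have cL : wc < vc → S * wc + S ≤ S * vc := fun hlt => by nlinarith
  have cR : vc < wc → S * vc + S ≤ S * wc := fun hlt => by nlinarith
  have rL : wr < vr → S * wr + S ≤ S * vr := fun hlt => by nlinarith
  have rR : vr < wr → S * vr + S ≤ S * wr := fun hlt => by nlinarith
  have hc : wc = vc := by
    rcases lt_trichotomy wc vc with hlt | heq | hgt
    · have k := cL hlt
      exfalso
      cases kw <;> simp only [lo, hi, fx, nx2] at h1 h2 <;> split_ifs at h1 h2 <;>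
        simp only [fx] at h1 h2 <;> omega
    · exact heq
    · have k := cR hgt
      exfalso
      cases kw <;> simp only [lo, hi, fx, nx2] at h1 h2 <;> split_ifs at h1 h2 <;>
        simp only [fx] at h1 h2 <;> omega
  subst hc
  have hr : wr = vr := by
    rcases lt_trichotomy wr vr with hlt | heq | hgt
    · have k := rL hlt
      exfalso
      cases kw <;> simp only [lo, hi, fx, nx2, jl, jh, fy, pv2] at h1 h2 h3 h4 <;>
        split_ifs at h1 h2 h3 h4 <;>
        simp only [fx, fy, mul_add, mul_sub, mul_one] at h1 h2 h3 h4 <;> omega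
    · exact heq
    · have k := rR hgt
      exfalso
      cases kw <;> simp only [lo, hi, fx, nx2, jl, jh, fy, pv2] at h1 h2 h3 h4 <;>
        split_ifs at h1 h2 h3 h4 <;>
        simp only [fx, fy, mul_add, mul_sub, mul_one] at h1 h2 h3 h4 <;> omega
  subst hr
  have hk : kw = Ke.L ∧ (4 * e ≤ e' ∧ g' + 10 * q ≤ g) := by
    cases kw <;> simp only [lo, hi, fx, nx2, jl, jh, fy, pv2] at h1 h2 h3 h4 <;>
      split_ifs at h1 h2 h3 h4 <;>
      simp only [fx, fy, mul_add, mul_sub, mul_one] at h1 h2 h3 h4 <;>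
      first
        | (exfalso; omega)
        | (refine ⟨rfl, ?_⟩; omega)
  obtain ⟨rfl, hcs⟩ := hk
  refine ⟨hcs, ⟨(wc, wr), hv, hw.1⟩, ?_, ?_⟩
  · simp only [prM, fx, nx2]
    split_ifs <;> simp only [fx]
    · rw [abs_of_neg (by omega), abs_of_nonneg (by omega)]
      omega
    · rw [abs_of_neg (by omega), abs_of_nonneg (by omega)]
      omega
  · intro t
    simp only [prW, fy, pv2]
    rw [abs_of_nonneg (by omega), abs_of_nonneg (by omega)]
    omega

end Pool.NTC
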